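import Pool.Agent.Results.MP_a5c736_co.DP

namespace Pool.Agent.Results.MP_f6aace_co.Five

def IsCover {V : Type} (G : SimpleGraph V) (m : ℕ) (H : SimpleGraph (V × Fin m)) : Prop :=
  (∀ v i j, i ≠ j → H.Adj (v, i) (v, j)) ∧
  (∀ u v i j j', u ≠ v → H.Adj (u, i) (v, j) → H.Adj (u, i) (v, j') → j = j') ∧
  (∀ u v i j, u ≠ v → H.Adj (u, i) (v, j) → G.Adj u v)

open Pool.Agent.Results.MP_a5c736_co.DP (greedy cov cov_ok dom clq card_lt)

def N : ℕ := 96459114945890980073282044435007175947955363684390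
def P : ℕ := 198824437476633184646639898872600925170896776921688

def G0 : SimpleGraph (Fin 13) :=
  SimpleGraph.fromRel fun u v => N.testBit (13 * u + v) = true ∨ P.testBit (13 * u + v) = true

instance : DecidableRel G0.Adj := by unfold G0; infer_instance

def wt (u v : Fin 13) : Fin 2 := if u < v ∧ P.testBit (13 * u + v) = true then 1 else 0

def bad (u a v b : ℕ) : Bool := bif a == b then N.testBit (13 * u + v) else P.testBit (13 * u + v)

theorem bad_spec : ∀ (u v : Fin 13) (a b : Fin 2), bad u a v b = true → G0.Adj u v ∧ a + wt u v = b + wt v u := by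
  decide +kernel

def ok : ℕ → List (ℕ × ℕ) → Bool
  | 0, l => decide (l.length ≤ 5)
  | r + 1, l => ok r l && (l.any (fun x => bad x.1 x.2 r 0) || ok r ((r, 0) :: l)) &&
      (l.any (fun x => bad x.1 x.2 r 1) || ok r ((r, 1) :: l))

theorem ok13 : ok 13 [] = true := by decide +kernel

theorem sound (D : Finset (Fin 13)) (c : Fin 13 → Fin 2)
    (hc : ∀ u ∈ D, ∀ v ∈ D, G0.Adj u v → c u + wt u v ≠ c v + wt v u) (r : ℕ) (hr : r ≤ 13) :
    ∀ l, ok r l = true → (∀ x ∈ l, ∃ u ∈ D, x = (u.1, (c u).1)) →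
      l.length + (D.filter fun v => v.1 < r).card ≤ 5 := by
  induction r with
  | zero => intro l h _; simpa [ok] using h
  | succ r ih =>
    intro l h hl
    simp only [ok, Bool.and_eq_true, Bool.or_eq_true, List.any_eq_true] at h
    by_cases hD : (⟨r, hr⟩ : Fin 13) ∈ D
    · have e : (D.filter fun v => v.1 < r + 1) = insert ⟨r, hr⟩ (D.filter fun v => v.1 < r) := by
        ext v
        simp only [Finset.mem_filter, Finset.mem_insert, Fin.ext_iff]
        constructor
        · rintro ⟨h1, h2⟩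
          by_cases h3 : v.1 = r
          · exact Or.inl h3
          · exact Or.inr ⟨h1, by omega⟩
        · rintro (h1 | h1)
          · exact ⟨by rwa [show v = ⟨r, hr⟩ from Fin.ext h1], by omega⟩
          · exact ⟨h1.1, by omega⟩
      rw [e, Finset.card_insert_of_notMem (by simp)]
      have nb : ¬ ∃ x ∈ l, bad x.1 x.2 r (c ⟨r, hr⟩).1 = true := by
        rintro ⟨x, hx, hb⟩
        obtain ⟨u, hu, rfl⟩ := hl x hx
        have := bad_spec u ⟨r, hr⟩ _ _ hb
        exact hc u hu _ hD this.1 this.2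
      have : ok r ((r, (c ⟨r, hr⟩).1) :: l) = true := by
        have h2 : (c ⟨r, hr⟩).1 = 0 ∨ (c ⟨r, hr⟩).1 = 1 := by omega
        rcases h2 with h2 | h2 <;> rw [h2] at nb ⊢
        · exact h.1.2.resolve_left nb
        · exact h.2.resolve_left nb
      have := ih (by omega) _ this (by
        intro x hx
        rcases List.mem_cons.mp hx with rfl | hx
        · exact ⟨_, hD, rfl⟩
        · exact hl x hx)
      simp only [List.length_cons] at this
      omega
    · have e : (D.filter fun v => v.1 < r + 1) = D.filter fun v => v.1 < r := by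
        refine Finset.filter_congr fun v hv => ⟨fun h => ?_, fun h => by omega⟩
        have : v.1 ≠ r := fun h3 => hD (by rwa [show v = ⟨r, hr⟩ from Fin.ext h3] at hv)
        omega
      rw [e]
      exact ih (by omega) l h.1.1 hl

theorem result : ∃ (n k : ℕ) (G : SimpleGraph (Fin n)), 0 < n ∧ 3 < k ∧
    IsLeast {m : ℕ | ∀ H, IsCover G m H → ∃ s, H.IsNIndepSet n s} k ∧
    ∃ H, IsCover G 2 H ∧ k * H.indepNum < 2 * n := by
  classical
  refine ⟨13, 5, G0, by omega, by omega, ⟨fun H hH => ?_, fun m hm => ?_⟩, cov _ wt, cov_ok _ _ _, ?_⟩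
  · obtain ⟨c, hc⟩ := greedy G0 H hH (fun v => ⟨Finset.univ.filter fun u => u < v ∧ G0.Adj u v,
      (by decide +kernel : ∀ v : Fin 13, (Finset.univ.filter fun u => u < v ∧ G0.Adj u v).card ≤ 4) v,
      fun u h1 h2 => by simp [h1, h2]⟩) 13
    refine ⟨Finset.univ.image fun v => (v, c v), ?_, ?_⟩
    · intro x hx y hy _
      obtain ⟨u, -, rfl⟩ := Finset.mem_image.1 hx
      obtain ⟨v, -, rfl⟩ := Finset.mem_image.1 hy
      exact hc u v u.2 v.2
    · rw [Finset.card_image_of_injective _ fun u v h => congrArg Prod.fst h]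
      simp
  · rcases m with _ | m
    · obtain ⟨S, hS⟩ := hm ⊥ ⟨fun _ i => i.elim0, fun _ _ i => i.elim0, fun _ _ i => i.elim0⟩
      have := hS.2
      rw [Finset.eq_empty_of_isEmpty S] at this
      simp at this
    obtain ⟨S, hS⟩ := hm (cov _ fun _ _ => 0) (cov_ok _ _ _)
    obtain ⟨D, c, hD, hc⟩ := dom _ _ S hS.1
    have hD' : D = Finset.univ := Finset.eq_univ_of_card _ (by rw [hD, hS.2]; simp)
    subst hD'
    have := clq (Finset.univ.filter fun v : Fin 13 => v.val < 5) c (by
      intro u hu v hv huv e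
      exact hc u (Finset.mem_univ _) v (Finset.mem_univ _)
        ((by decide +kernel : ∀ u v : Fin 13, u.val < 5 → v.val < 5 → u ≠ v → G0.Adj u v) u v
          (Finset.mem_filter.1 hu).2 (Finset.mem_filter.1 hv).2 huv) (by rw [e]))
    rwa [card_lt _ _ (by omega)] at this
  · obtain ⟨S, hS⟩ := (cov G0 wt).exists_isNIndepSet_indepNum
    obtain ⟨D, c, hD, hc⟩ := dom _ _ S hS.1
    have := sound D c hc 13 le_rfl [] ok13 (by simp)
    rw [Finset.filter_true_of_mem fun v _ => v.2, hD, hS.2] at this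
    simp at this
    omega

end Pool.Agent.Results.MP_f6aace_co.Five
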